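import Pool.Agent.Helper9.WS.Defs

/-!
# WS-9b: the characteristic polynomial of the cyclic block matrix
-/

open Finset

namespace Pool.Agent.Helper9.WS

section

open Polynomial

variable {R I : Type} [CommRing R] [Fintype I] [DecidableEq I]

/-- the preceding index -/
private def prev54 {t : ℕ} (a : Fin (t + 1)) : Fin (t + 1) :=
  if h : (a : ℕ) = 0 then Fin.last t else ⟨(a : ℕ) - 1, by omega⟩

private lemma prev54_iff {t : ℕ} (a j : Fin (t + 1)) :
    ((j : ℕ) + 1) % (t + 1) = (a : ℕ) ↔ j = prev54 a := by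
  unfold prev54
  constructor
  · intro h
    by_cases hj : (j : ℕ) = t
    · rw [hj, Nat.mod_self] at h
      rw [dif_pos h.symm]
      exact Fin.ext hj
    · rw [Nat.mod_eq_of_lt (by omega)] at h
      rw [dif_neg (by omega)]
      apply Fin.ext
      simp only
      omega
  · intro h
    by_cases ha : (a : ℕ) = 0
    · rw [dif_pos ha] at h
      rw [h, Fin.val_last, Nat.mod_self, ha]
    · rw [dif_neg ha] at h
      rw [h]
      simp only
      rw [Nat.mod_eq_of_lt (by omega)]
      omega

/-- the block column operation -/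
private noncomputable def opN54 (t : ℕ) (A : ℕ → Matrix I I R) :
    Matrix (Fin (t + 1) × I) (Fin (t + 1) × I) R[X] := fun x y =>
  if (y.1 : ℕ) = 0 then (X : R[X]) ^ (x.1 : ℕ) * C (mprod A x.1 x.2 y.2)
  else if x.1 = y.1 then (if x.2 = y.2 then 1 else 0) else 0

private lemma det_opN54 (t : ℕ) (A : ℕ → Matrix I I R) : (opN54 t A).det = 1 := by
  have hT : (opN54 t A).BlockTriangular fun x => OrderDual.toDual x.1 := by
    intro x y h
    have h1 : x.1 < y.1 := h
    unfold opN54
    rw [if_neg (by have := Fin.lt_def.1 h1; omega), if_neg (ne_of_lt h1)]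
  rw [hT.det]
  refine Finset.prod_eq_one fun a _ => ?_
  have h1 : (opN54 t A).toSquareBlock (fun x => OrderDual.toDual x.1) a = 1 := by
    ext1 ⟨x, hx⟩ ⟨y, hy⟩
    have hxy : x.1 = y.1 := by
      have h2 : OrderDual.toDual x.1 = OrderDual.toDual y.1 := hx.trans hy.symm
      exact h2
    rw [Matrix.toSquareBlock_def, Matrix.of_apply, Matrix.one_apply]
    unfold opN54
    simp only [Subtype.mk.injEq]
    by_cases h0 : (y.1 : ℕ) = 0
    · rw [if_pos h0, hxy, h0, pow_zero, one_mul]
      change C ((1 : Matrix I I R) x.2 y.2) = _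
      rw [Matrix.one_apply]
      by_cases h3 : x.2 = y.2
      · rw [if_pos h3, if_pos (Prod.ext hxy h3), map_one]
      · rw [if_neg h3, if_neg (fun h => h3 (congrArg Prod.snd h)), map_zero]
    · rw [if_neg h0, if_pos hxy]
      by_cases h3 : x.2 = y.2
      · rw [if_pos h3, if_pos (Prod.ext hxy h3)]
      · rw [if_neg h3, if_neg (fun h => h3 (congrArg Prod.snd h))]
  rw [h1, Matrix.det_one]

/-- the product of `1 - X cyc` and the operation -/
private lemma mul_opN54 (t : ℕ) (A : ℕ → Matrix I I R) (x y : Fin (t + 1) × I) :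
    ((1 - (X : R[X]) • (cyc (t + 1) A).map C) * opN54 t A) x y =
      opN54 t A x y - X * ∑ k, C (A (prev54 x.1) x.2 k) * opN54 t A (prev54 x.1, k) y := by
  rw [sub_mul, one_mul, Matrix.sub_apply, Matrix.smul_mul, Matrix.smul_apply, smul_eq_mul,
    Matrix.mul_apply, Fintype.sum_prod_type]
  congr 2
  rw [Finset.sum_eq_single (prev54 x.1)]
  · refine Finset.sum_congr rfl fun k _ => ?_
    rw [Matrix.map_apply]
    unfold cyc
    simp only
    rw [if_pos ((prev54_iff _ _).2 rfl)]
  · intro j _ hj
    refine Finset.sum_eq_zero fun k _ => ?_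
    rw [Matrix.map_apply]
    unfold cyc
    simp only
    rw [if_neg (fun h => hj ((prev54_iff _ _).1 h)), map_zero, zero_mul]
  · intro h
    exact absurd (Finset.mem_univ _) h

/-- the entries outside the first block column -/
private lemma mul_opN54_ne (t : ℕ) (A : ℕ → Matrix I I R) (x y : Fin (t + 1) × I)
    (hy : (y.1 : ℕ) ≠ 0) : ((1 - (X : R[X]) • (cyc (t + 1) A).map C) * opN54 t A) x y =
      (if x = y then 1 else 0) - if prev54 x.1 = y.1 then X * C (A (prev54 x.1) x.2 y.2) else 0 := by
  rw [mul_opN54]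
  congr 1
  · unfold opN54
    rw [if_neg hy]
    by_cases h1 : x.1 = y.1
    · rw [if_pos h1]
      by_cases h3 : x.2 = y.2
      · rw [if_pos h3, if_pos (Prod.ext h1 h3)]
      · rw [if_neg h3, if_neg (fun h => h3 (congrArg Prod.snd h))]
    · rw [if_neg h1, if_neg (fun h => h1 (congrArg Prod.fst h))]
  · have h1 : ∀ k, opN54 t A (prev54 x.1, k) y = if prev54 x.1 = y.1 then (if k = y.2 then 1 else 0)
        else 0 := by
      intro k
      unfold opN54
      rw [if_neg hy]
    simp only [h1]
    by_cases h2 : prev54 x.1 = y.1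
    · simp only [if_pos h2]
      congr 1
      rw [Finset.sum_eq_single y.2]
      · rw [if_pos rfl, mul_one]
      · intro k _ hk
        rw [if_neg hk, mul_zero]
      · intro h
        exact absurd (Finset.mem_univ _) h
    · simp only [if_neg h2, mul_zero, Finset.sum_const_zero]

/-- the first block column -/
private lemma mul_opN54_zero (t : ℕ) (A : ℕ → Matrix I I R) (x y : Fin (t + 1) × I)
    (hy : (y.1 : ℕ) = 0) : ((1 - (X : R[X]) • (cyc (t + 1) A).map C) * opN54 t A) x y =
      if (x.1 : ℕ) = 0 then (if x.2 = y.2 then 1 else 0) -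
        X ^ (t + 1) * C (mprod A (t + 1) x.2 y.2) else 0 := by
  rw [mul_opN54]
  have h1 : ∀ k, C (A (prev54 x.1) x.2 k) * opN54 t A (prev54 x.1, k) y =
      X ^ (prev54 x.1 : ℕ) * C (A (prev54 x.1) x.2 k * mprod A (prev54 x.1) k y.2) := by
    intro k
    unfold opN54
    rw [if_pos hy, map_mul]
    ring
  simp only [h1]
  rw [← Finset.mul_sum, ← map_sum]
  have h2 : ∑ k, A (prev54 x.1) x.2 k * mprod A (prev54 x.1) k y.2 =
      mprod A ((prev54 x.1 : ℕ) + 1) x.2 y.2 := by
    change _ = (A (prev54 x.1) * mprod A (prev54 x.1)) x.2 y.2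
    rw [Matrix.mul_apply]
  rw [h2]
  by_cases h0 : (x.1 : ℕ) = 0
  · rw [if_pos h0]
    have h3 : (prev54 x.1 : ℕ) = t := by
      unfold prev54
      rw [dif_pos h0]
      rfl
    rw [h3, ← mul_assoc, ← pow_succ']
    congr 1
    unfold opN54
    rw [if_pos hy, h0, pow_zero, one_mul]
    change C ((1 : Matrix I I R) x.2 y.2) = _
    rw [Matrix.one_apply]
    split_ifs <;> simp
  · rw [if_neg h0]
    have h3 : (prev54 x.1 : ℕ) + 1 = x.1 := by
      unfold prev54
      rw [dif_neg h0]
      simp only
      omega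
    rw [h3, ← mul_assoc, ← pow_succ', h3]
    unfold opN54
    rw [if_pos hy, sub_self]

/-- the order of the blocks -/
private def ord54 {t : ℕ} (x : Fin (t + 1) × I) : ℕ := if (x.1 : ℕ) = 0 then 0 else t + 1 - x.1

private lemma tri54 (t : ℕ) (A : ℕ → Matrix I I R) :
    ((1 - (X : R[X]) • (cyc (t + 1) A).map C) * opN54 t A).BlockTriangular ord54 := by
  intro x y h
  unfold ord54 at h
  by_cases hy : (y.1 : ℕ) = 0
  · rw [if_pos hy] at h
    have hx : (x.1 : ℕ) ≠ 0 := by
      intro hx
      rw [if_pos hx] at h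
      omega
    rw [mul_opN54_zero t A x y hy, if_neg hx]
  · rw [if_neg hy] at h
    have hx : (x.1 : ℕ) ≠ 0 := by
      intro hx
      rw [if_pos hx] at h
      omega
    rw [if_neg hx] at h
    have h1 := y.1.2
    have h2 := x.1.2
    have hlt : (x.1 : ℕ) < y.1 := by omega
    rw [mul_opN54_ne t A x y hy, if_neg, if_neg, sub_zero]
    · intro h3
      have h4 : (prev54 x.1 : ℕ) = (x.1 : ℕ) - 1 := by
        unfold prev54
        rw [dif_neg hx]
      rw [h3] at h4
      omega
    · rintro rfl
      omega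

theorem charpolyRev_cyc {R I : Type} [CommRing R] [Fintype I] [DecidableEq I] {s : ℕ}
    (hs : 0 < s) (A : ℕ → Matrix I I R) :
    (cyc s A).charpolyRev = Polynomial.expand R s (mprod A s).charpolyRev := by
  obtain ⟨t, rfl⟩ : ∃ t, s = t + 1 := ⟨s - 1, by omega⟩
  have h1 : (cyc (t + 1) A).charpolyRev =
      ((1 - (X : R[X]) • (cyc (t + 1) A).map C) * opN54 t A).det := by
    rw [Matrix.det_mul, det_opN54, mul_one]
    rfl
  have h2 : Polynomial.expand R (t + 1) (mprod A (t + 1)).charpolyRev =
      (Matrix.of fun i j : I => (if i = j then (1 : R[X]) else 0) -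
        X ^ (t + 1) * C (mprod A (t + 1) i j)).det := by
    unfold Matrix.charpolyRev
    rw [AlgHom.map_det]
    congr 1
    ext1 i j
    rw [AlgHom.mapMatrix_apply, Matrix.map_apply, Matrix.of_apply, Matrix.sub_apply,
      Matrix.smul_apply, Matrix.map_apply, Matrix.one_apply, smul_eq_mul, map_sub, map_mul,
      Polynomial.expand_X, Polynomial.expand_C]
    split_ifs <;> simp
  rw [h1, h2, (tri54 t A).det]
  have hblock : ∀ a : ℕ, a ≠ 0 →
      (((1 - (X : R[X]) • (cyc (t + 1) A).map C) * opN54 t A).toSquareBlock ord54 a).det = 1 := by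
    intro a ha
    have h3 : ((1 - (X : R[X]) • (cyc (t + 1) A).map C) * opN54 t A).toSquareBlock ord54 a = 1 := by
      ext1 ⟨x, hx'⟩ ⟨y, hy'⟩
      have hx := hx'
      have hy := hy'
      unfold ord54 at hx hy
      have hx0 : (x.1 : ℕ) ≠ 0 := by
        intro h
        rw [if_pos h] at hx
        exact ha hx.symm
      have hy0 : (y.1 : ℕ) ≠ 0 := by
        intro h
        rw [if_pos h] at hy
        exact ha hy.symm
      rw [if_neg hx0] at hx
      rw [if_neg hy0] at hy
      have h4 := x.1.2
      have h5 := y.1.2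
      have hxy : (x.1 : ℕ) = y.1 := by omega
      rw [Matrix.toSquareBlock_def, Matrix.of_apply, mul_opN54_ne t A x y hy0, Matrix.one_apply]
      have h7 : (if (⟨x, hx'⟩ : {z : Fin (t + 1) × I // ord54 z = a}) = ⟨y, hy'⟩ then (1 : R[X])
          else 0) = if x = y then 1 else 0 := by
        by_cases h : x = y
        · rw [if_pos h, if_pos (Subtype.ext h)]
        · rw [if_neg h, if_neg (fun h' => h (congrArg Subtype.val h'))]
      refine Eq.trans ?_ h7.symm
      rw [if_neg (c := prev54 x.1 = y.1), sub_zero]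
      intro h3
      have h6 : (prev54 x.1 : ℕ) = (x.1 : ℕ) - 1 := by
        unfold prev54
        rw [dif_neg hx0]
      rw [h3] at h6
      omega
    rw [h3, Matrix.det_one]
  have h0 : (((1 - (X : R[X]) • (cyc (t + 1) A).map C) * opN54 t A).toSquareBlock ord54 0).det =
      (Matrix.of fun i j : I => (if i = j then (1 : R[X]) else 0) -
        X ^ (t + 1) * C (mprod A (t + 1) i j)).det := by
    have hz : ∀ i : I, ord54 ((0 : Fin (t + 1)), i) = 0 := by
      intro i
      unfold ord54
      rw [if_pos (by simp)]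
    let e : I ≃ {x : Fin (t + 1) × I // ord54 x = 0} :=
      { toFun := fun i => ⟨(0, i), hz i⟩
        invFun := fun x => x.1.2
        left_inv := fun i => rfl
        right_inv := by
          rintro ⟨⟨a, i⟩, hx⟩
          apply Subtype.ext
          unfold ord54 at hx
          simp only at hx
          have h4 := a.2
          have h5 : (a : ℕ) = 0 := by
            by_contra h
            rw [if_neg h] at hx
            omega
          exact Prod.ext (Fin.ext (by simp [h5])) rfl }
    rw [← Matrix.det_submatrix_equiv_self e]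
    congr 1
    ext1 i j
    rw [Matrix.submatrix_apply, Matrix.toSquareBlock_def, Matrix.of_apply, Matrix.of_apply,
      mul_opN54_zero t A _ _ (by simp [e]), if_pos (by simp [e])]
    rfl
  rcases isEmpty_or_nonempty I with hI | ⟨⟨i0⟩⟩
  · have h3 : (Finset.univ.image (ord54 : Fin (t + 1) × I → ℕ)) = ∅ := by
      rw [Finset.image_eq_empty]
      exact Finset.univ_eq_empty
    rw [h3, Finset.prod_empty, Matrix.det_isEmpty]
  · rw [Finset.prod_eq_single 0]
    · exact h0
    · intro a _ ha
      exact hblock a ha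
    · intro h
      exfalso
      apply h
      rw [Finset.mem_image]
      refine ⟨(0, i0), Finset.mem_univ _, ?_⟩
      unfold ord54
      rw [if_pos (by simp)]

end

theorem det_cyc_ne_zero {K I : Type} [Field K] [Fintype I] [DecidableEq I] {s : ℕ}
    (hs : 0 < s) (A : ℕ → Matrix I I K) (hA : ∀ i < s, (A i).det ≠ 0) : (cyc s A).det ≠ 0 := by
  intro h0
  obtain ⟨v, hv, hv0⟩ := Matrix.exists_mulVec_eq_zero_iff.2 h0
  apply hv
  funext ⟨j, k⟩
  have h1 : (A j).mulVec (fun k => v (j, k)) = 0 := by
    funext i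
    have h2 := congrFun hv0 (⟨((j : ℕ) + 1) % s, Nat.mod_lt _ hs⟩, i)
    rw [Matrix.mulVec, dotProduct, Fintype.sum_prod_type, Finset.sum_eq_single j] at h2
    · rw [Matrix.mulVec, dotProduct, Pi.zero_apply]
      rw [Pi.zero_apply] at h2
      rw [← h2]
      refine Finset.sum_congr rfl fun k _ => ?_
      unfold cyc
      simp
    · intro j' _ hj'
      refine Finset.sum_eq_zero fun k _ => ?_
      unfold cyc
      rw [if_neg, zero_mul]
      simp only
      intro h3
      apply hj'
      apply Fin.ext
      have h4 := j.2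
      have h5 := j'.2
      by_cases h6 : (j' : ℕ) + 1 = s
      · rw [h6, Nat.mod_self] at h3
        by_cases h7 : (j : ℕ) + 1 = s
        · omega
        · rw [Nat.mod_eq_of_lt (by omega)] at h3
          omega
      · rw [Nat.mod_eq_of_lt (show (j' : ℕ) + 1 < s by omega)] at h3
        by_cases h7 : (j : ℕ) + 1 = s
        · rw [h7, Nat.mod_self] at h3
          omega
        · rw [Nat.mod_eq_of_lt (by omega)] at h3
          omega
    · intro h
      exact absurd (Finset.mem_univ _) h
  by_contra hne
  apply hA j j.2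
  rw [← Matrix.exists_mulVec_eq_zero_iff]
  refine ⟨fun k => v (j, k), ?_, h1⟩
  intro h
  exact hne (congrFun h k)

end Pool.Agent.Helper9.WS
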