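import Pool.Agent.Helper9.WS.Defs

/-!
# WS-2b: transport of a frame to an arbitrary algebraically closed field of characteristic zero
-/

open Finset

namespace Pool.Agent.Helper9.WS

/-- valuation rings extend along embeddings of fields -/
private theorem ext_val54 {A L : Type} [Field A] [Field L] (f : A →+* L) (V : ValuationSubring A) :
    ∃ O : ValuationSubring L, ∀ x : A, f x ∈ O ↔ x ∈ V := by
  obtain ⟨O, hO⟩ := (LocalSubring.map f V.toLocalSubring).exists_le_valuationSubring
  obtain ⟨hle, hloc⟩ := LocalSubring.le_def.1 hO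
  have hmem : ∀ x ∈ V, f x ∈ (LocalSubring.map f V.toLocalSubring).toSubring := by
    intro x hx
    exact ⟨x, hx, rfl⟩
  refine ⟨O, fun x => ⟨fun hx => ?_, fun hx => hle (hmem x hx)⟩⟩
  by_contra hxV
  have hx0 : x ≠ 0 := by
    rintro rfl
    exact hxV V.zero_mem
  have hinv : x⁻¹ ∈ V := (V.mem_or_inv_mem x).resolve_left hxV
  -- `f x⁻¹` is a unit of `O`
  have hu : IsUnit (Subring.inclusion hle ⟨f x⁻¹, hmem _ hinv⟩) := by
    refine IsUnit.of_mul_eq_one (⟨f x, hx⟩ : O.toLocalSubring.toSubring) ?_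
    apply Subtype.ext
    change f x⁻¹ * f x = 1
    rw [← map_mul, inv_mul_cancel₀ hx0, map_one]
  obtain ⟨y, hy⟩ := (hloc.map_nonunit _ hu).exists_right_inv
  obtain ⟨z, hz, hzy⟩ := y.2
  have h1 : f x⁻¹ * f z = 1 := by
    have h2 := congrArg Subtype.val hy
    have h3 : f z = (y : L) := hzy
    rw [h3]
    exact h2
  rw [← map_mul, ← map_one f] at h1
  have h2 := f.injective h1
  have h3 : z = x := by
    calc z = x * (x⁻¹ * z) := by rw [← mul_assoc, mul_inv_cancel₀ hx0, one_mul]
      _ = x := by rw [h2, mul_one]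
  exact hxV (h3 ▸ hz)

/-- comparison of the values -/
private theorem le_iff54 {A L₀ L : Type} [Field A] [Field L₀] [Field L] (f₀ : A →+* L₀) (f : A →+* L)
    (O₀ : ValuationSubring L₀) (O : ValuationSubring L) (h : ∀ x : A, f x ∈ O ↔ f₀ x ∈ O₀) (a b : A) :
    O.valuation (f a) ≤ O.valuation (f b) ↔ O₀.valuation (f₀ a) ≤ O₀.valuation (f₀ b) := by
  by_cases hb : b = 0
  · subst hb
    rw [map_zero, map_zero, map_zero, map_zero, le_zero_iff, le_zero_iff, Valuation.zero_iff,
      Valuation.zero_iff, map_eq_zero, map_eq_zero]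
  · have hb1 : f b ≠ 0 := (map_ne_zero f).2 hb
    have hb2 : f₀ b ≠ 0 := (map_ne_zero f₀).2 hb
    have e1 : O.valuation (f a) ≤ O.valuation (f b) ↔ f (a / b) ∈ O := by
      rw [← O.valuation_le_one_iff, map_div₀, map_div₀,
        div_le_one₀ (zero_lt_iff.2 ((Valuation.ne_zero_iff _).2 hb1))]
    have e2 : O₀.valuation (f₀ a) ≤ O₀.valuation (f₀ b) ↔ f₀ (a / b) ∈ O₀ := by
      rw [← O₀.valuation_le_one_iff, map_div₀, map_div₀,
        div_le_one₀ (zero_lt_iff.2 ((Valuation.ne_zero_iff _).2 hb2))]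
    rw [e1, e2, h]

/-- algebraic elements over `ZMod p` are roots of unity -/
private theorem pow_eq_one54 (p : ℕ) [Fact p.Prime] (x : AlgebraicClosure (ZMod p)) (hx : x ≠ 0) :
    ∃ n : ℕ, 0 < n ∧ x ^ n = 1 := by
  have hint : IsIntegral (ZMod p) x := Algebra.IsIntegral.isIntegral x
  have hfd : FiniteDimensional (ZMod p) (IntermediateField.adjoin (ZMod p) {x}) :=
    IntermediateField.adjoin.finiteDimensional hint
  have hfin : Finite (IntermediateField.adjoin (ZMod p) {x}) := Module.finite_of_finite (ZMod p)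
  set y : IntermediateField.adjoin (ZMod p) {x} :=
    ⟨x, IntermediateField.mem_adjoin_simple_self (ZMod p) x⟩ with hy
  have hy0 : y ≠ 0 := by
    intro h
    exact hx (congrArg Subtype.val h)
  obtain ⟨n, hn, h⟩ := (isOfFinOrder_iff_pow_eq_one).1 (isOfFinOrder_of_finite (Units.mk0 y hy0))
  refine ⟨n, hn, ?_⟩
  have h1 := congrArg (fun u : (IntermediateField.adjoin (ZMod p) {x})ˣ =>
    ((u : IntermediateField.adjoin (ZMod p) {x}) : AlgebraicClosure (ZMod p))) h
  simpa using h1

/-- transport of a frame -/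
theorem exists_frame_of (p : ℕ) [Fact p.Prime]
    (hw : ∃ (L₀ : Type) (_ : Field L₀) (_ : CharZero L₀) (_ : IsAlgClosed L₀)
      (Φ : Frame p (AlgebraicClosure (ZMod p)) L₀), ∀ x y, Φ.v (Φ.T x + Φ.T y - Φ.T (x + y)) < 1)
    (L : Type) [Field L] [CharZero L] [IsAlgClosed L] :
    ∃ Φ : Frame p (AlgebraicClosure (ZMod p)) L, ∀ x y, Φ.v (Φ.T x + Φ.T y - Φ.T (x + y)) < 1 := by
  obtain ⟨L₀, _, _, _, Φ, hadd⟩ := hw
  let f₀ : algebraicClosure ℚ L₀ →+* L₀ := (algebraicClosure ℚ L₀).val.toRingHom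
  have hal : Algebra.IsAlgebraic ℚ (algebraicClosure ℚ L₀) := by
    refine ⟨fun x => ?_⟩
    obtain ⟨P, h1, h2⟩ := (algebraicClosure.isAlgebraic ℚ L₀).isAlgebraic x
    refine ⟨P, h1, ?_⟩
    rw [Polynomial.aeval_def] at h2 ⊢
    rw [← h2]
    congr 1
  let g : algebraicClosure ℚ L₀ →ₐ[ℚ] L := IsAlgClosed.lift
  let f : algebraicClosure ℚ L₀ →+* L := g.toRingHom
  obtain ⟨O, hO⟩ := ext_val54 f (Φ.O.comap f₀)
  have hmem : ∀ x, f x ∈ O ↔ f₀ x ∈ Φ.O := hO
  have hle := le_iff54 f₀ f Φ.O O hmem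
  have hlt : ∀ a b, O.valuation (f a) < O.valuation (f b) ↔
      Φ.O.valuation (f₀ a) < Φ.O.valuation (f₀ b) := by
    intro a b
    rw [← not_le, ← not_le, hle]
  have halg : ∀ x, Φ.T x ∈ algebraicClosure ℚ L₀ := by
    intro x
    by_cases hx : x = 0
    · rw [hx, map_zero]
      exact (algebraicClosure ℚ L₀).zero_mem
    · obtain ⟨n, hn, h⟩ := pow_eq_one54 p x hx
      rw [mem_algebraicClosure_iff]
      refine IsIntegral.isAlgebraic (IsIntegral.of_pow hn ?_)
      rw [← map_pow, h, map_one]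
      exact isIntegral_one
  let T₁ : AlgebraicClosure (ZMod p) → algebraicClosure ℚ L₀ := fun x => ⟨Φ.T x, halg x⟩
  have hT₁ : ∀ x, f₀ (T₁ x) = Φ.T x := fun x => rfl
  have hf₀ : Function.Injective f₀ := f₀.injective
  let T : AlgebraicClosure (ZMod p) →*₀ L :=
    { toFun := fun x => f (T₁ x)
      map_zero' := by
        have : T₁ 0 = 0 := hf₀ (by rw [hT₁, map_zero, map_zero])
        rw [this, map_zero]
      map_one' := by
        have : T₁ 1 = 1 := hf₀ (by rw [hT₁, map_one, map_one])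
        rw [this, map_one]
      map_mul' := by
        intro x y
        have : T₁ (x * y) = T₁ x * T₁ y := hf₀ (by rw [map_mul f₀, hT₁, hT₁, hT₁, map_mul])
        rw [this, map_mul] }
  have hT : ∀ x, T x = f (T₁ x) := fun x => rfl
  have hp : f ((p : ℕ) : algebraicClosure ℚ L₀) = (p : L) := map_natCast f p
  have hp₀ : f₀ ((p : ℕ) : algebraicClosure ℚ L₀) = (p : L₀) := map_natCast f₀ p
  let Ψ : Frame p (AlgebraicClosure (ZMod p)) L :=
    { O := O
      p_lt := by
        have h1 := (hlt ((p : ℕ) : algebraicClosure ℚ L₀) 1).2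
          (by rw [hp₀, map_one f₀, map_one]; exact Φ.p_lt)
        rwa [hp, map_one f, map_one] at h1
      T := T
      T_inj := by
        intro x y h
        have h1 : T₁ x = T₁ y := f.injective h
        exact Φ.T_inj (congrArg f₀ h1)
      T_le := by
        intro x
        have h1 := (hle (T₁ x) 1).2 (by rw [hT₁, map_one f₀, map_one]; exact Φ.T_le x)
        rwa [map_one f, map_one] at h1
      approx := by
        intro r t ht N
        obtain ⟨n, h1, h2⟩ := Φ.approx r t ht N
        refine ⟨n, ?_, h2⟩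
        have h3 := (hle (∑ i ∈ range r, T₁ t ^ p ^ i - (n : algebraicClosure ℚ L₀))
          (((p : ℕ) : algebraicClosure ℚ L₀) ^ N)).2 (by
            rw [map_sub f₀, map_sum, map_natCast f₀, map_pow f₀, hp₀, map_pow]
            simp only [map_pow f₀, hT₁]
            exact h1)
        rw [map_sub f, map_sum, map_natCast f, map_pow f, hp, map_pow] at h3
        simp only [map_pow f] at h3
        exact h3 }
  refine ⟨Ψ, fun x y => ?_⟩
  have h1 := (hlt (T₁ x + T₁ y - T₁ (x + y)) 1).2 (by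
    rw [map_sub f₀, map_add f₀, hT₁, hT₁, hT₁, map_one f₀, map_one]
    exact hadd x y)
  rw [map_sub f, map_add f, map_one f, map_one] at h1
  exact h1

end Pool.Agent.Helper9.WS
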