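import Pool.Agent.Helper34.WS.Witt
import Pool.Agent.Helper54.WS.Frm

/-!
# WS-2: frames over the algebraic closure of the prime field
-/

namespace Pool.Agent.Helper9.WS

theorem exists_frame (p : ℕ) [Fact p.Prime] (L : Type) [Field L] [CharZero L] [IsAlgClosed L] :
    ∃ Φ : Frame p (AlgebraicClosure (ZMod p)) L, ∀ x y,
      Φ.v (Φ.T x + Φ.T y - Φ.T (x + y)) < 1 :=
  exists_frame_of p (exists_frame_witt p (AlgebraicClosure (ZMod p))) L

end Pool.Agent.Helper9.WS
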